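import Mathlib
import Pool.Agent.Work.MP_30c208_al.RepW

set_option autoImplicit false

namespace Pool.Agent.Results.MP_30c208_al.SylowIndicatorCounterexample

open Representation

/-- The Frobenius-Schur indicator of the character of a complex representation of a finite
group `H`: the average over `h` in `H` of the value of the character at `h ^ 2`. -/
noncomputable def indicator {H : Type} [Group H] {V : Type} [AddCommGroup V] [Module ℂ V]
    (ρ : Representation ℂ H V) : ℂ :=
  (Nat.card H : ℂ)⁻¹ * ∑ᶠ h : H, ρ.character (h ^ 2)

open Pool.Agent.Work.MP_30c208_al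

theorem indicator_eq_nu {H : Type} [Group H] [Fintype H] {V : Type} [AddCommGroup V]
    [Module ℂ V] [FiniteDimensional ℂ V] (ρ : Representation ℂ H V) :
    indicator ρ = nu ρ := by
  rw [indicator, nu, Nat.card_eq_fintype_card, finsum_eq_sum_of_fintype]

/-- There are a finite group `G`, of order 7680, and a Sylow 2-subgroup `S` of `G`, of order 512,
such that every irreducible complex character of `G` has Frobenius-Schur indicator 1, every
irreducible complex character of `S` is real-valued, and some irreducible complex character
of `S`, of degree 8, has Frobenius-Schur indicator -1. -/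
theorem result : ∃ (G : Type) (_ : Group G) (S : Sylow 2 G),
    Finite G ∧ Nat.card G = 7680 ∧ Nat.card S = 512 ∧
    (∀ (V : Type) [AddCommGroup V] [Module ℂ V] [FiniteDimensional ℂ V]
      (ρ : Representation ℂ G V), ρ.IsIrreducible → indicator ρ = 1) ∧
    (∀ (V : Type) [AddCommGroup V] [Module ℂ V] [FiniteDimensional ℂ V]
      (σ : Representation ℂ S V), σ.IsIrreducible → ∀ s : S, (σ.character s).im = 0) ∧
    ∃ σ : Representation ℂ S (Fin 2 × Fin 4 → ℂ), σ.IsIrreducible ∧ indicator σ = -1 := by
  have hS : Fintype SG := Fintype.ofFinite _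
  refine ⟨G, inferInstance, SylS, inferInstance, ?_, card_SG, ?_, ?_, W, W_irr, ?_⟩
  · rw [Nat.card_eq_fintype_card]; exact G.card_G
  · intro V _ _ _ ρ hρ
    rw [indicator_eq_nu]
    exact G_TO ρ
  · intro V _ _ _ σ hσ s
    exact S_char_real σ s
  · exact (indicator_eq_nu W).trans W_nu

end Pool.Agent.Results.MP_30c208_al.SylowIndicatorCounterexample
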